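import Pool.Agent.helper22.ARR.Defs

/-!
# Divisors on varieties with a torus action, and `a`-lc threshold polytopes

Let `X` be a general arrangement variety of dimension `n + c` over `ℙ^c` with elliptic fixed point
`x`, given by vectors `v i` in the lattice `ℤ^n × ℤ^r` as in `Pool.Agent.helper22.ARR.Defs`; for
`c = 1`, `r = 2` these are the toric varieties, for `c = 1` all rational varieties with a torus action
of complexity one.

A pair `(X, B)` with a torus-invariant boundary and with real powers of homogeneous ideals or, more
generally, with a nef part `M = ∑ μ_k M_k`, where the b-divisor `M_k` is generated by the finite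
nonempty set `S_k` of homogeneous rational functions `f χ^u`, `f` a product of powers of the linear
forms, is given by a linear function `psi` and by the `μ_k` and `S_k`; its log discrepancy along the
invariant valuation `w` is `⟨psi, w⟩ - ∑ μ_k min {⟨m, w⟩ : m ∈ S_k}`.

In the same way an effective torus-invariant divisor `D` with a nef part `N = ∑ ν_k N_k`, with
`D + N` `ℝ`-Cartier, is given by a linear function `phi` which vanishes on `diag` and by finite
sets `T_k`; its order along `w` is `⟨phi, w⟩ + ∑ ν_k min {⟨m, w⟩ : m ∈ T_k}`, and adding `s (D + N)` to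
the pair lowers the log discrepancy by `s` times this order.
-/

noncomputable section

namespace Pool.Agent.helper20.TAT

open Finset Pool.Agent.helper22.ARR

/-- The data of a pair with a torus action, with `m` additional divisors `D_j`, each with a nef part
`N_j`. -/
structure Data (ι : Type) (m : ℕ) extends GenPair ι where
  /-- the linear functions `φ_j` of the divisors `D_j + N_j` -/
  phi : Fin m → ι → ℝ
  /-- for each `j` the coefficients `ν_k` together with the finite sets `T_k` of characters -/
  dparts : Fin m → List (ℝ × Finset (ι → ℤ))

variable {ι : Type} [Fintype ι] {m : ℕ}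

/-- the order of the `j`-th divisor `D_j + N_j` along the valuation `w` -/
def order (t : Data ι m) (j : Fin m) (w : ι → ℝ) : ℝ :=
  ∑ i, t.phi j i * w i + ((t.dparts j).map fun a => a.1 * low a.2 w).sum

variable {n r : ℕ}

/-- `t` describes a pair and divisors `D_j + N_j` on an arrangement variety over `ℙ^c`, with all
coefficients in `Γ`; for the boundary and for `D_j`, sums of elements of `Γ` (in particular `0`) are
allowed -/
structure HasCoeff (c : ℕ) (Γ : Set ℝ) (t : Data (Fin n ⊕ Fin r) m) : Prop where
  /-- there are more than `c` hyperplanes -/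
  size : c < r
  /-- each `v i` is of the form `(w, 0)` or `(w, l e_y)` with `l > 0` -/
  columns : ∀ i, Trop 1 (t.v i)
  /-- each `y` occurs in some `v i` -/
  onto : ∀ y, ∃ i, t.v i (Sum.inr y) ≠ 0
  /-- `K + B + M` is `ℝ`-Cartier; the canonical divisor of `ℙ^c` has degree `- (c + 1)`. In the
  second case (for `c = 1`) the base is an elliptic curve instead of `ℙ^1`. -/
  degree : ∑ y, (1 - t.psi (Sum.inr y)) = c + 1 ∨ ∑ y, (1 - t.psi (Sum.inr y)) = 0
  /-- the coefficients of the nef part lie in `Γ`, the sets of characters are nonempty, and the
  characters are trivial on `diag` -/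
  parts : ∀ a ∈ t.parts, a.1 ∈ Γ ∧ a.2.Nonempty ∧ ∀ k ∈ a.2, ∑ y, k (Sum.inr y) = 0
  /-- the coefficients of the boundary are finite sums of elements of `Γ` -/
  boundary : ∀ i, 1 - logDisc t.toGenPair (toReal (t.v i)) ∈ AddSubmonoid.closure Γ
  /-- the linear functions `φ_j` vanish on `diag` -/
  degrees : ∀ j, ∑ y, t.phi j (Sum.inr y) = 0
  /-- the coefficients of the nef parts `N_j` lie in `Γ`, the sets of characters are nonempty, and
  the characters are trivial on `diag` -/
  dparts : ∀ j, ∀ a ∈ t.dparts j, a.1 ∈ Γ ∧ a.2.Nonempty ∧ ∀ k ∈ a.2, ∑ y, k (Sum.inr y) = 0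
  /-- the coefficients of the divisors `D_j` are finite sums of elements of `Γ` -/
  divisors : ∀ j i, order t j (toReal (t.v i)) ∈ AddSubmonoid.closure Γ
  /-- the cone is of full dimension -/
  full : (interior (bigCone t.toGenPair)).Nonempty

/-- The `a`-lc threshold polytope: the set of all `s` with nonnegative coordinates such that the log
discrepancies of `(X, B + M + ∑ s_j (D_j + N_j))` along the invariant valuations with centre `x` are at
least `a`. -/
def thresholds (c : ℕ) (a : ℝ) (t : Data (Fin n ⊕ Fin r) m) : Set (Fin m → ℝ) :=
  {s | (∀ j, 0 ≤ s j) ∧ ∀ z : Fin n ⊕ Fin r → ℤ, Trop c z →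
    toReal z ∈ interior (bigCone t.toGenPair) →
    a ≤ logDisc t.toGenPair (toReal z) - ∑ j, s j * order t j (toReal z)}

end Pool.Agent.helper20.TAT
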