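import Pool.Agent.helper20.TAT.Toric
import Pool.Agent.helper22.ARR.Main

/-!
# Orders of divisors on arrangement varieties
-/

noncomputable section

namespace Pool.Agent.helper20.TAT

open Finset Pool.Agent.helper22.ARR

variable {ι ι' : Type} [Fintype ι] [Fintype ι'] {m : ℕ}

/-! ## orders -/

theorem listlow_add {L : List (ℝ × Finset (ι → ℤ))} (hL : ∀ a ∈ L, 0 ≤ a.1 ∧ a.2.Nonempty)
    (x y : ι → ℝ) : (L.map fun a => a.1 * low a.2 x).sum + (L.map fun a => a.1 * low a.2 y).sum ≤
      (L.map fun a => a.1 * low a.2 (x + y)).sum := by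
  rw [← List.sum_map_add]
  apply List.sum_le_sum
  intro a ha
  have := mul_le_mul_of_nonneg_left (low_add (hL a ha).2 x y) (hL a ha).1
  rw [mul_add] at this
  exact this

theorem listlow_smul (L : List (ℝ × Finset (ι → ℤ))) {s : ℝ} (hs : 0 ≤ s) (x : ι → ℝ) :
    (L.map fun a => a.1 * low a.2 (s • x)).sum = s * (L.map fun a => a.1 * low a.2 x).sum := by
  rw [← List.sum_map_mul_left]
  congr 1
  refine List.map_congr_left fun a _ => ?_
  rw [low_smul _ hs]
  ring

theorem order_add {t : Data ι m} {j : Fin m} (hL : ∀ a ∈ t.dparts j, 0 ≤ a.1 ∧ a.2.Nonempty)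
    (x y : ι → ℝ) : order t j x + order t j y ≤ order t j (x + y) := by
  have h1 := listlow_add hL x y
  simp only [order, Pi.add_apply, mul_add, Finset.sum_add_distrib]
  linarith

theorem order_smul (t : Data ι m) (j : Fin m) {s : ℝ} (hs : 0 ≤ s) (x : ι → ℝ) :
    order t j (s • x) = s * order t j x := by
  simp only [order, listlow_smul _ hs, Pi.smul_apply, smul_eq_mul, mul_add, Finset.mul_sum]
  congr 1
  exact Finset.sum_congr rfl fun i _ => by ring

theorem order_zero (t : Data ι m) (j : Fin m) : order t j 0 = 0 := by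
  have := order_smul t j le_rfl (0 : ι → ℝ)
  rwa [zero_smul, zero_mul] at this

theorem order_sum {t : Data ι m} {j : Fin m} (hL : ∀ a ∈ t.dparts j, 0 ≤ a.1 ∧ a.2.Nonempty)
    {α : Type*} (s : Finset α) (f : α → ι → ℝ) :
    ∑ a ∈ s, order t j (f a) ≤ order t j (∑ a ∈ s, f a) := by
  classical
  induction s using Finset.induction_on with
  | empty => simp [order_zero]
  | insert a s ha ih =>
    rw [Finset.sum_insert ha, Finset.sum_insert ha]
    exact (add_le_add le_rfl ih).trans (order_add hL _ _)

/-- the order at a sum of integral vectors differs from the sum of the orders by a sum of elements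
of `Γ` -/
theorem order_defect {Γ : Set ℝ} {t : Data ι m} {j : Fin m}
    (hL : ∀ a ∈ t.dparts j, a.1 ∈ Γ ∧ a.2.Nonempty) {α : Type*} (s : Finset α) (f : α → ι → ℤ) :
    ∃ e ∈ AddSubmonoid.closure Γ, order t j (toReal (∑ y ∈ s, f y)) =
      ∑ y ∈ s, order t j (toReal (f y)) + e := by
  obtain ⟨e, he, h⟩ := defect (t.dparts j) hL s f
  refine ⟨e, he, ?_⟩
  simp only [order, Finset.sum_add_distrib]
  rw [h]
  have h5 : ∑ i, t.phi j i * toReal (∑ y ∈ s, f y) i =
      ∑ y ∈ s, ∑ i, t.phi j i * toReal (f y) i := by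
    rw [toReal_sum, Finset.sum_comm]
    refine Finset.sum_congr rfl fun i _ => ?_
    simp only [Finset.sum_apply, Finset.mul_sum]
  rw [h5]
  ring

/-! ## pulling back -/

/-- the data on the smaller lattice -/
def pullD (A : ι → ι' → ℤ) (t : Data ι m) (p' : ℕ) (v' : Fin p' → ι' → ℤ) : Data ι' m := by
  classical
  exact
  { toGenPair := pull A t.toGenPair p' v'
    phi := fun j k => ∑ i, t.phi j i * (A i k : ℝ)
    dparts := fun j => (t.dparts j).map fun a => (a.1, a.2.image (push A)) }

theorem low_push (A : ι → ι' → ℤ) (S : Finset (ι → ℤ)) [DecidableEq (ι' → ℤ)] (x : ι' → ℝ) :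
    low (S.image (push A)) x = low S (lin A x) := by
  rw [low, low, Finset.coe_image, Set.image_image]
  congr 1
  exact Set.image_congr fun m _ => pair_push A m x

theorem order_pull (A : ι → ι' → ℤ) (t : Data ι m) (p' : ℕ) (v' : Fin p' → ι' → ℤ) (j : Fin m)
    (x : ι' → ℝ) : order (pullD A t p' v') j x = order t j (lin A x) := by
  classical
  simp only [order, pullD, List.map_map]
  congr 1
  · simp only [lin, Finset.mul_sum, Finset.sum_mul]
    rw [Finset.sum_comm]
    exact Finset.sum_congr rfl fun j _ => Finset.sum_congr rfl fun k _ => by ring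
  · congr 1
    refine List.map_congr_left fun a _ => ?_
    simp only [Function.comp_apply]
    rw [low_push]

/-! ## adding divisors -/

/-- the pair with the divisors `s_j (D_j + N_j)` added -/
def comb (t : Data ι m) (s : Fin m → ℝ) : GenPair ι where
  p := t.p
  v := t.v
  psi := fun i => t.psi i - ∑ j, s j * t.phi j i
  parts := t.parts ++ (List.finRange m).flatMap fun j =>
    (t.dparts j).map fun a => (s j * a.1, a.2)

theorem logDisc_comb (t : Data ι m) (s : Fin m → ℝ) (w : ι → ℝ) :
    logDisc (comb t s) w = logDisc t.toGenPair w - ∑ j, s j * order t j w := by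
  have h1 : ∀ l : List (Fin m), ((l.flatMap fun j =>
      (t.dparts j).map fun a => (s j * a.1, a.2)).map fun a => a.1 * low a.2 w).sum =
      (l.map fun j => s j * ((t.dparts j).map fun a => a.1 * low a.2 w).sum).sum := by
    intro l
    induction l with
    | nil => simp
    | cons j l ih =>
      rw [List.flatMap_cons, List.map_append, List.sum_append, ih, List.map_cons, List.sum_cons]
      congr 1
      rw [List.map_map, ← List.sum_map_mul_left]
      congr 1
      refine List.map_congr_left fun a _ => ?_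
      simp only [Function.comp_apply]
      ring
  have h2 : ((List.finRange m).map fun j =>
      s j * ((t.dparts j).map fun a => a.1 * low a.2 w).sum).sum =
      ∑ j, s j * ((t.dparts j).map fun a => a.1 * low a.2 w).sum := by
    rw [Fin.sum_univ_def]
  simp only [logDisc, comb, List.map_append, List.sum_append]
  rw [h1, h2]
  simp only [order, mul_add, Finset.sum_add_distrib, sub_mul, Finset.sum_sub_distrib]
  have h3 : ∑ i, (∑ j, s j * t.phi j i) * w i = ∑ j, s j * ∑ i, t.phi j i * w i := by
    simp only [Finset.sum_mul, Finset.mul_sum]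
    rw [Finset.sum_comm]
    exact Finset.sum_congr rfl fun j _ => Finset.sum_congr rfl fun i _ => by ring
  rw [h3]
  ring

/-! ## arrangement varieties -/

variable {n r c : ℕ} {Γ : Set ℝ} {t : Data (Fin n ⊕ Fin r) m}

theorem order_diag (ht : HasCoeff c Γ t) (j : Fin m) (x : Fin n ⊕ Fin r → ℝ) (s : ℝ) :
    order t j (x + s • toReal (diag n r)) = order t j x := by
  rw [order, order]
  have h1 : ((t.dparts j).map fun a => a.1 * low a.2 (x + s • toReal (diag n r))).sum =
      ((t.dparts j).map fun a => a.1 * low a.2 x).sum := by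
    congr 1
    refine List.map_congr_left fun a ha => ?_
    rw [low_diag (ht.dparts j a ha).2.2]
  rw [h1]
  simp only [Pi.add_apply, mul_add, Finset.sum_add_distrib]
  rw [psi_diag, ht.degrees j]
  ring

/-- orders are nonnegative on the cone -/
theorem order_nonneg (ht : HasCoeff c Γ t) (hΓ : ∀ x ∈ Γ, 0 ≤ x) (j : Fin m)
    {x : Fin n ⊕ Fin r → ℝ} (hx : x ∈ bigCone t.toGenPair) : 0 ≤ order t j x := by
  obtain ⟨μ, s, hμ, h⟩ := hx
  have h1 : x = ∑ i, μ i • toReal (t.v i) + s • toReal (diag n r) := by
    funext k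
    rw [h k]
    simp only [Pi.add_apply, Finset.sum_apply, Pi.smul_apply, smul_eq_mul, toReal]
  rw [h1, order_diag ht]
  refine le_trans ?_ (order_sum
    (fun a ha => ⟨hΓ _ (ht.dparts j a ha).1, (ht.dparts j a ha).2.1⟩) _ _)
  refine Finset.sum_nonneg fun i _ => ?_
  rw [order_smul _ _ (hμ i)]
  exact mul_nonneg (hμ i) (closure_nonneg hΓ (ht.divisors j i))

end Pool.Agent.helper20.TAT
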