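import Pool.Agent.helper20.TAT.Red

/-!
# Reduction to toric data: log canonicity, and the first case
-/

noncomputable section

namespace Pool.Agent.helper20.TAT

open Finset Pool.Agent.helper22.ARR

variable {m : ℕ}
variable {n r q c : ℕ} {Γ : Set ℝ} {t : Data (Fin n ⊕ Fin r) m}

/-- an integral point in the interior with vanishing second component -/
theorem exists_int0 {t : GenPair (Fin n ⊕ Fin r)} (ht : IsLC c Γ t) :
    ∃ z : Fin n ⊕ Fin r → ℤ, (∀ y, z (Sum.inr y) = 0) ∧ toReal z ∈ interior (bigCone t) := by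
  classical
  set P : Fin n ⊕ Fin r → ℤ := ∑ i ∈ hor t, t.v i +
    ∑ φ ∈ (univ : Finset (Fin r → Fin t.p)).filter (Sel t), X0 t φ with hP
  have hinr : ∀ y, P (Sum.inr y) = 0 := by
    intro y
    simp only [hP, Pi.add_apply, Finset.sum_apply]
    rw [Finset.sum_eq_zero (fun i hi => mem_hor.1 hi y), Finset.sum_eq_zero, add_zero]
    intro φ hφ
    exact X0_inr ht (Finset.mem_filter.1 hφ).2 y
  refine ⟨P, hinr, ?_⟩
  have hfull := ht.full
  rw [bigCone_eq] at hfull ⊢
  apply interior_of_rint _ hfull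
  have hPr : toReal P = ∑ i ∈ hor t, toReal (t.v i) +
      ∑ φ ∈ (univ : Finset (Fin r → Fin t.p)).filter (Sel t), toReal (X0 t φ) := by
    rw [hP, toReal_add, toReal_sum, toReal_sum]
  rw [hPr]
  have hA : ∑ i ∈ hor t, toReal (t.v i) ∈ coneOf (ext t) := coneOf_sum _ _ _ fun i _ => ext_gen _
  have hB : ∑ φ ∈ (univ : Finset (Fin r → Fin t.p)).filter (Sel t), toReal (X0 t φ) ∈
      coneOf (ext t) := coneOf_sum _ _ _ fun φ hφ => X0_mem ht (Finset.mem_filter.1 hφ).2
  refine rint_ext (coneOf_add _ hA hB) fun j => ?_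
  by_cases hj : j ∈ hor t
  · refine ⟨1, one_pos, ?_⟩
    rw [one_smul, ← Finset.add_sum_erase _ _ hj]
    have h2 : ∀ u v w : Fin n ⊕ Fin r → ℝ, u + v + w - u = v + w := by intros; abel
    rw [h2]
    exact coneOf_add _ (coneOf_sum _ _ _ fun i _ => ext_gen _) hB
  · rw [mem_hor] at hj
    push Not at hj
    obtain ⟨y, hy⟩ := hj
    obtain ⟨φ₀, hφ₀⟩ := ht.exists_sel
    set φ := Function.update φ₀ y j with hφdef
    have hφ : Sel t φ := by
      intro y'
      by_cases h : y' = y
      · subst h; rw [hφdef, Function.update_self]; exact hy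
      · rw [hφdef, Function.update_of_ne h]; exact hφ₀ y'
    refine ⟨(Ny t φ y : ℝ), by exact_mod_cast Ny_pos ht hφ y, ?_⟩
    have hmem : φ ∈ (univ : Finset (Fin r → Fin t.p)).filter (Sel t) := by simpa using hφ
    rw [← Finset.add_sum_erase _ _ hmem, toReal_X0, XX, toReal_sum,
      ← Finset.add_sum_erase univ _ (Finset.mem_univ y), toReal_zsmul]
    have hj' : φ y = j := by rw [hφdef, Function.update_self]
    rw [hj']
    have h2 : ∀ a u v w z : Fin n ⊕ Fin r → ℝ, a + (u + v + w + z) - u = a + (v + w + z) := by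
      intros; abel
    rw [h2]
    refine coneOf_add _ hA (coneOf_add _ (coneOf_add _ (coneOf_sum _ _ _ fun y' _ => ?_)
      (ext_diag _)) (coneOf_sum _ _ _ fun φ hφ =>
        X0_mem ht (Finset.mem_filter.1 (Finset.mem_of_mem_erase hφ)).2))
    rw [toReal_zsmul]
    exact coneOf_smul _ (ext_gen _) (by exact_mod_cast (Ny_pos ht hφ y').le)

/-- an auxiliary pair with the same cone -/
def auxP (t : GenPair (Fin n ⊕ Fin r)) : GenPair (Fin n ⊕ Fin r) where
  p := t.p
  v := t.v
  psi := Sum.elim (fun _ => 0) (fun _ => 1)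
  parts := []

theorem auxP_lc (ht : HasCoeff c Γ t) : IsLC c Set.univ (auxP t.toGenPair) where
  size := ht.size
  columns := ht.columns
  onto := ht.onto
  degree := Or.inr (by simp [auxP])
  parts := by intro a ha; simp [auxP] at ha
  boundary := fun i => AddSubmonoid.subset_closure (Set.mem_univ _)
  lc := by
    intro z hz _
    simp only [logDisc, auxP, Fintype.sum_sum_type, Sum.elim_inl, Sum.elim_inr, zero_mul, one_mul,
      Finset.sum_const_zero, List.map_nil, List.sum_nil, toReal]
    have : (0 : ℝ) ≤ ∑ y, (z (Sum.inr y) : ℝ) :=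
      Finset.sum_nonneg fun y _ => by exact_mod_cast hz.1 y
    linarith
  full := ht.full

theorem comb_nice (ht : HasCoeff c Γ t) (hΓ : ∀ x ∈ Γ, 0 ≤ x) {s : Fin m → ℝ}
    (hs : ∀ j, 0 ≤ s j) : Nice (comb t s) := by
  intro a ha
  rcases List.mem_append.1 ha with ha | ha
  · exact ⟨hΓ _ (ht.parts a ha).1, (ht.parts a ha).2.1⟩
  · obtain ⟨j, _, ha⟩ := List.mem_flatMap.1 ha
    obtain ⟨b, hb, rfl⟩ := List.mem_map.1 ha
    exact ⟨mul_nonneg (hs j) (hΓ _ (ht.dparts j b hb).1), (ht.dparts j b hb).2.1⟩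

theorem lc_of (ht : HasCoeff c Γ t) (hΓ : ∀ x ∈ Γ, 0 ≤ x) {a : ℝ} (ha : 0 ≤ a)
    {s : Fin m → ℝ} (hs : s ∈ thresholds c a t) {z : Fin n ⊕ Fin r → ℤ} (hz : Trop c z)
    (hz2 : toReal z ∈ bigCone t.toGenPair) : 0 ≤ logDisc (comb t s) (toReal z) := by
  obtain ⟨P, hP0, hP⟩ := exists_int0 (auxP_lc ht)
  change toReal P ∈ interior (bigCone t.toGenPair) at hP
  have hnice := comb_nice ht hΓ hs.1
  by_contra hcon
  push Not at hcon
  obtain ⟨N, hN⟩ := exists_nat_gt (logDisc (comb t s) (toReal P) / -logDisc (comb t s) (toReal z))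
  have h1 : Trop c ((N : ℤ) • z + P) := by
    have hc : ∀ y, ((N : ℤ) • z + P) (Sum.inr y) = N * z (Sum.inr y) := by
      intro y
      simp [hP0 y]
    refine ⟨fun y => ?_, ?_⟩
    · rw [hc]
      exact mul_nonneg (by positivity) (hz.1 y)
    · refine (Finset.card_le_card ?_).trans hz.2
      intro y hy
      rw [Finset.mem_filter] at hy ⊢
      refine ⟨Finset.mem_univ _, fun h => hy.2 ?_⟩
      rw [hc, h, mul_zero]
  have h2 : toReal ((N : ℤ) • z + P) ∈ interior (bigCone t.toGenPair) := by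
    rw [toReal_add, toReal_zsmul, add_comm]
    rw [bigCone_eq] at hP hz2 ⊢
    exact interior_add _ hP (coneOf_smul _ hz2 (by positivity))
  have h3 := hs.2 _ h1 h2
  rw [← logDisc_comb, toReal_add, toReal_zsmul] at h3
  have h4 := logDisc_add hnice (((N : ℤ) : ℝ) • toReal z) (toReal P)
  rw [logDisc_smul _ (by positivity)] at h4
  rw [div_lt_iff₀ (by linarith)] at hN
  simp only [Int.cast_natCast] at h3 h4
  nlinarith

theorem isLC_comb (ht : HasCoeff c Γ t) (hΓ : ∀ x ∈ Γ, 0 ≤ x) {a : ℝ} (ha : 0 ≤ a)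
    {s : Fin m → ℝ} (hs : s ∈ thresholds c a t) {θ : ℝ} (hθ0 : 0 ≤ θ) (hθ1 : θ ≤ 1) :
    IsLC c (Set.Ici 0) (comb t (fun j => θ * s j)) where
  size := ht.size
  columns := ht.columns
  onto := ht.onto
  degree := by
    have h1 : ∑ y, (1 - (comb t (fun j => θ * s j)).psi (Sum.inr y)) =
        ∑ y, (1 - t.psi (Sum.inr y)) := by
      simp only [comb]
      have h2 : ∑ y, ∑ j, θ * s j * t.phi j (Sum.inr y) = 0 := by
        rw [Finset.sum_comm]
        refine Finset.sum_eq_zero fun j _ => ?_
        rw [← Finset.mul_sum, ht.degrees j, mul_zero]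
      have h3 : ∀ y, 1 - (t.psi (Sum.inr y) - ∑ j, θ * s j * t.phi j (Sum.inr y)) =
          (1 - t.psi (Sum.inr y)) + ∑ j, θ * s j * t.phi j (Sum.inr y) := fun y => by ring
      simp only [h3, Finset.sum_add_distrib, h2, add_zero]
    rw [h1]
    exact ht.degree
  parts := by
    intro a ha
    rcases List.mem_append.1 ha with ha | ha
    · exact ⟨hΓ _ (ht.parts a ha).1, (ht.parts a ha).2⟩
    · obtain ⟨j, _, ha⟩ := List.mem_flatMap.1 ha
      obtain ⟨b, hb, rfl⟩ := List.mem_map.1 ha
      exact ⟨mul_nonneg (mul_nonneg hθ0 (hs.1 j)) (hΓ _ (ht.dparts j b hb).1),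
        (ht.dparts j b hb).2⟩
  boundary := by
    intro i
    apply AddSubmonoid.subset_closure
    rw [Set.mem_Ici, logDisc_comb]
    have h1 := closure_nonneg hΓ (ht.boundary i)
    have h2 : 0 ≤ ∑ j, θ * s j * order t j (toReal (t.v i)) :=
      Finset.sum_nonneg fun j _ => mul_nonneg (mul_nonneg hθ0 (hs.1 j))
        (closure_nonneg hΓ (ht.divisors j i))
    change 0 ≤ 1 - (logDisc t.toGenPair (toReal (t.v i)) -
      ∑ j, θ * s j * order t j (toReal (t.v i)))
    linarith
  lc := by
    intro z hz hz2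
    change toReal z ∈ bigCone t.toGenPair at hz2
    have h1 := lc_of ht hΓ ha hs hz hz2
    rw [logDisc_comb] at h1 ⊢
    have h2 : ∑ j, θ * s j * order t j (toReal z) ≤ ∑ j, s j * order t j (toReal z) := by
      refine Finset.sum_le_sum fun j _ => ?_
      refine mul_le_mul_of_nonneg_right ?_ (order_nonneg ht hΓ j hz2)
      exact mul_le_of_le_one_left (hs.1 j) hθ1
    linarith
  full := ht.full

theorem isLC_of (ht : HasCoeff c Γ t) (hΓ : ∀ x ∈ Γ, 0 ≤ x) {a : ℝ} (ha : 0 ≤ a)
    {s : Fin m → ℝ} (hs : s ∈ thresholds c a t) : IsLC c Γ t.toGenPair where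
  size := ht.size
  columns := ht.columns
  onto := ht.onto
  degree := ht.degree
  parts := ht.parts
  boundary := ht.boundary
  lc := by
    intro z hz hz2
    have h1 := lc_of ht hΓ ha hs hz hz2
    rw [logDisc_comb] at h1
    have h2 : 0 ≤ ∑ j, s j * order t j (toReal z) :=
      Finset.sum_nonneg fun j _ => mul_nonneg (hs.1 j) (order_nonneg ht hΓ j hz2)
    linarith
  full := ht.full

/-- the auxiliary toric data on the ambient space -/
def bigD (c : ℕ) (t : Data (Fin n ⊕ Fin r) m) : Data (Fin n ⊕ Fin r) m where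
  toGenPair := big c t.toGenPair
  phi := t.phi
  dparts := t.dparts

variable {π : Fin r → Fin q} {sec : Fin q → Fin r}

theorem redA (ht : HasCoeff c Γ t) (hlc : IsLC c Γ t.toGenPair) (hΓ : ∀ x ∈ Γ, 0 ≤ x) {a : ℝ}
    (ha : 0 ≤ a) (hdeg : ∑ y, (1 - t.psi (Sum.inr y)) = c + 1) {φ₀ : Fin r → Fin t.p}
    (hφ₀ : Sel t.toGenPair φ₀) (hpos : 0 < logDisc t.toGenPair (toReal (X0 t.toGenPair φ₀)))
    (hsec : ∀ k, π (sec k) = k) (hm : Mult t.toGenPair π) {z₀ : Fin n ⊕ Fin r → ℤ}
    (hz : Trop c z₀) (hz2 : toReal z₀ ∈ interior (bigCone t.toGenPair))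
    (hz3 : ∀ y y', π y = π y' → y ≠ y' → z₀ (Sum.inr y) = 0) {s₀ : Fin m → ℝ}
    (hs₀ : logDisc t.toGenPair (toReal z₀) - ∑ j, s₀ j * order t j (toReal z₀) < a) :
    ∃ t' : Data (Fin n ⊕ Fin q) m, CoefC (insert 1 Γ) ((c : ℝ) + 1) t' ∧
      (∀ s ∈ thresholds c a t, s ∈ thr a t') ∧ s₀ ∉ thr a t' := by
  classical
  have hz0 : lin (AA n π) (toReal (Sum.elim (fun a => z₀ (Sum.inl a))
      (fun k => z₀ (Sum.inr (sec k))))) = toReal z₀ := by
    funext j
    rcases j with a | y
    · rw [AA_inl]; simp [toReal]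
    · rw [AA_inr]
      simp only [toReal, Sum.elim_inr]
      by_cases h : sec (π y) = y
      · rw [h]
      · have h1 := hz3 (sec (π y)) y (hsec _) h
        have h2 := hz3 y (sec (π y)) (hsec _).symm (Ne.symm h)
        rw [h1, h2]
  rw [bigCone_eq] at hz2
  have hz2r := rint_of_interior _ hz2
  have hordb : ∀ j x, order (bigD c t) j x = order t j x := fun j x => rfl
  refine red_abstract (t := t) (bigD c t) (AA n π) (gA t.toGenPair π sec) (thresholds c a t)
    (fun s hs => hs.1) ?_ ?_ ?_ ?_ ?_ ?_ ?_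
    (Sum.elim (fun a => z₀ (Sum.inl a)) (fun k => z₀ (Sum.inr (sec k)))) ?_ s₀ ?_
  · rintro (i | ⟨k, φ⟩ | b)
    · rw [lin_hor]
      change ((c : ℝ) + 1) - logDisc (big c t.toGenPair) (toReal (t.v i.1)) ∈ _
      rw [big_trop ht.size (hor_trop i.2)]
      have h1 : ((c : ℝ) + 1) - logDisc t.toGenPair (toReal (t.v i.1)) =
          c + (1 - logDisc t.toGenPair (toReal (t.v i.1))) := by ring
      rw [h1]
      exact AddSubmonoid.add_mem _ (nat_mem Γ c) (clos_mono (ht.boundary _))
    · rw [lin_sel hlc hsec hm]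
      exact valA hlc φ _
    · rw [lin_bool]
      have h1 := hlc.bigDiag hdeg 0 (if b then (1 : ℝ) else -1)
      rw [zero_add, logDisc_zero] at h1
      change ((c : ℝ) + 1) - logDisc (big c t.toGenPair) _ ∈ _
      rw [h1, sub_zero]
      have := nat_mem Γ (c + 1)
      push_cast at this
      exact this
  · intro j
    rintro (i | ⟨k, φ⟩ | b)
    · rw [lin_hor, hordb]
      exact clos_mono (ht.divisors j i.1)
    · rw [lin_sel hlc hsec hm, hordb, ← toReal_sum]
      obtain ⟨x, hx, h⟩ := order_defect (t := t) (j := j)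
        (fun a ha => ⟨(ht.dparts j a ha).1, (ht.dparts j a ha).2.1⟩)
        (univ.filter (fun y => π y = k)) (fun y => t.v (φ.1 y))
      rw [h]
      exact AddSubmonoid.add_mem _ (AddSubmonoid.sum_mem _ fun y _ =>
        clos_mono (ht.divisors j (φ.1 y))) (clos_mono hx)
    · rw [lin_bool, hordb]
      have h1 := order_diag ht j 0 (if b then (1 : ℝ) else -1)
      rw [zero_add, order_zero] at h1
      rw [h1]
      exact AddSubmonoid.zero_mem _
  · intro a ha
    rcases List.mem_cons.1 ha with rfl | ha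
    · exact ⟨Set.mem_insert _ _, top_nonempty ht.size⟩
    · exact ⟨Set.mem_insert_of_mem _ (ht.parts a ha).1, (ht.parts a ha).2.1⟩
  · intro j a ha
    exact ⟨Set.mem_insert_of_mem _ (ht.dparts j a ha).1, (ht.dparts j a ha).2.1⟩
  · rintro (i | ⟨k, φ⟩ | b)
    · rw [lin_hor]; exact ext_gen _
    · rw [lin_sel hlc hsec hm]
      exact coneOf_sum _ _ _ fun y _ => ext_gen _
    · rw [lin_bool]; exact ext_diag _
  · intro j
    by_cases hj : j ∈ hor t.toGenPair
    · refine ⟨Sum.inl ⟨j, hj⟩, 1, one_pos, ?_⟩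
      rw [lin_hor, one_smul, sub_self]
      exact coneOf_zero _
    · rw [mem_hor] at hj
      push Not at hj
      obtain ⟨y, hy⟩ := hj
      have hφ : Sel t.toGenPair (Function.update φ₀ y j) := by
        intro y'
        by_cases h : y' = y
        · subst h; rw [Function.update_self]; exact hy
        · rw [Function.update_of_ne h]; exact hφ₀ y'
      refine ⟨Sum.inr (Sum.inl (π y, ⟨_, hφ⟩)), 1, one_pos, ?_⟩
      rw [lin_sel hlc hsec hm, one_smul]
      have h1 := Finset.add_sum_erase (univ.filter (fun y' => π y' = π y))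
        (fun y' => toReal (t.v (Function.update φ₀ y j y'))) (a := y) (by simp)
      rw [← h1, Function.update_self, add_sub_cancel_left]
      exact coneOf_sum _ _ _ fun y _ => ext_gen _
  · intro z _ hzr s hs
    rw [lin_toReal] at hzr ⊢
    set Z := linZ (AA n π) z with hZ
    have hZc : toReal Z ∈ bigCone t.toGenPair := by rw [bigCone_eq]; exact hzr.1
    have hS0 : 0 ≤ ∑ j, s j * order t j (toReal Z) :=
      Finset.sum_nonneg fun j _ => mul_nonneg (hs.1 j) (order_nonneg ht hΓ j hZc)
    simp only [hordb]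
    change a ≤ logDisc (big c t.toGenPair) (toReal Z) - _
    -- perturbation
    have key : ∀ θ : ℝ, 0 ≤ θ → θ < 1 →
        a ≤ logDisc (big c t.toGenPair) (toReal Z) - θ * ∑ j, s j * order t j (toReal Z) := by
      intro θ hθ0 hθ1
      have hL := isLC_comb ht hΓ ha hs hθ0 hθ1.le
      have hX := lc_of ht hΓ ha hs (X0_trop hlc hφ₀)
        (by rw [bigCone_eq]; exact X0_mem hlc hφ₀)
      rw [logDisc_comb] at hX
      have hpos' : 0 < logDisc (comb t (fun j => θ * s j))
          (toReal (X0 (comb t (fun j => θ * s j)) φ₀)) := by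
        change 0 < logDisc (comb t (fun j => θ * s j)) (toReal (X0 t.toGenPair φ₀))
        rw [logDisc_comb]
        have h1 : ∑ j, θ * s j * order t j (toReal (X0 t.toGenPair φ₀)) =
            θ * ∑ j, s j * order t j (toReal (X0 t.toGenPair φ₀)) := by
          rw [Finset.mul_sum]
          exact Finset.sum_congr rfl fun j _ => by ring
        rw [h1]
        nlinarith
      have hdeg' : ∑ y, (1 - (comb t (fun j => θ * s j)).psi (Sum.inr y)) = c + 1 := by
        have h1 : ∑ y, (1 - (comb t (fun j => θ * s j)).psi (Sum.inr y)) =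
            ∑ y, (1 - t.psi (Sum.inr y)) := by
          simp only [comb]
          have h2 : ∑ y, ∑ j, θ * s j * t.phi j (Sum.inr y) = 0 := by
            rw [Finset.sum_comm]
            refine Finset.sum_eq_zero fun j _ => ?_
            rw [← Finset.mul_sum, ht.degrees j, mul_zero]
          have h3 : ∀ y, 1 - (t.psi (Sum.inr y) - ∑ j, θ * s j * t.phi j (Sum.inr y)) =
              (1 - t.psi (Sum.inr y)) + ∑ j, θ * s j * t.phi j (Sum.inr y) := fun y => by ring
          simp only [h3, Finset.sum_add_distrib, h2, add_zero]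
        rw [h1]
        exact hdeg
      obtain ⟨k, u, h1, h2⟩ := pia (t := comb t (fun j => θ * s j)) hL (fun x hx => hx) hdeg'
        (φ := φ₀) hφ₀ hpos' Z
      set Z' : Fin n ⊕ Fin r → ℤ := addM t.toGenPair φ₀ Z (fun y => (k y : ℤ)) - u • diag n r
        with hZ'
      change Trop c Z' at h1
      change logDisc (comb t (fun j => θ * s j)) (toReal Z') ≤ _ at h2
      have e : toReal Z' = toReal Z +
          (∑ y, (k y : ℝ) • toReal (t.v (φ₀ y)) + (-(u : ℝ)) • toReal (diag n r)) := by
        rw [hZ', toReal_sub, toReal_zsmul, addM, toReal_add, toReal_sum]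
        simp only [toReal_zsmul, Int.cast_natCast]
        rw [neg_smul]; abel
      have hint : toReal Z' ∈ interior (bigCone t.toGenPair) := by
        have hfull := ht.full
        rw [bigCone_eq] at hfull ⊢
        apply interior_of_rint _ hfull
        rw [e]
        exact rint_add _ hzr (coneOf_add _ (coneOf_sum _ _ _ fun y _ =>
          coneOf_smul _ (ext_gen _) (Nat.cast_nonneg _)) (ext_diag _))
      have h3 := hs.2 Z' h1 hint
      have h4 : 0 ≤ ∑ j, s j * order t j (toReal Z') :=
        Finset.sum_nonneg fun j _ => mul_nonneg (hs.1 j)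
          (order_nonneg ht hΓ j (interior_subset hint))
      rw [logDisc_comb, logDisc_big, logDisc_comb] at h2
      rw [logDisc_big]
      have h5 : ∀ x, ∑ j, θ * s j * order t j x = θ * ∑ j, s j * order t j x := by
        intro x
        rw [Finset.mul_sum]
        exact Finset.sum_congr rfl fun j _ => by ring
      rw [h5, h5] at h2
      nlinarith
    refine le_of_forall_pos_le_add fun ε hε => ?_
    set S := ∑ j, s j * order t j (toReal Z) with hS
    have h1 := key (1 - min 1 (ε / (S + 1))) (by linarith [min_le_left (1 : ℝ) (ε / (S + 1))])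
      (by
        have : 0 < min 1 (ε / (S + 1)) := lt_min one_pos (div_pos hε (by linarith))
        linarith)
    have h2 : min 1 (ε / (S + 1)) * S ≤ ε := by
      calc min 1 (ε / (S + 1)) * S ≤ ε / (S + 1) * S :=
            mul_le_mul_of_nonneg_right (min_le_right _ _) hS0
        _ ≤ ε / (S + 1) * (S + 1) := by
            apply mul_le_mul_of_nonneg_left (by linarith)
            exact (div_pos hε (by linarith)).le
        _ = ε := by
            have : S + 1 ≠ 0 := by linarith
            field_simp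
    linarith
  · refine ⟨?_, fun i => ?_⟩
    · apply coneA hlc hsec hm
      rw [hz0]; exact hz2r.1
    · have h3 : lin (AA n π) (toReal (gA t.toGenPair π sec i)) ∈ coneOf (ext t.toGenPair) := by
        rcases i with (i | ⟨k, φ⟩ | b)
        · rw [lin_hor]; exact ext_gen _
        · rw [lin_sel hlc hsec hm]
          exact coneOf_sum _ _ _ fun y _ => ext_gen _
        · rw [lin_bool]; exact ext_diag _
      obtain ⟨ε, hε, h⟩ := rint_sub _ hz2r h3
      refine ⟨ε, hε, ?_⟩
      apply coneA hlc hsec hm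
      rw [lin_sub, lin_smul, hz0]
      exact h
  · rw [hz0]
    simp only [hordb]
    change logDisc (big c t.toGenPair) (toReal z₀) - _ < a
    rw [big_trop ht.size hz]
    exact hs₀

end Pool.Agent.helper20.TAT
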