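import Pool.Agent.helper20.TAT.Defs
import Pool.Agent.helper22.ARR.Toric
import Pool.Agent.helper20.ALC.Main

/-!
# Threshold polytopes in a toric setting, with a constant
-/

noncomputable section

namespace Pool.Agent.helper20.TAT

open Finset Pool.Agent.helper22.ARR
open Pool.Agent.helper22.ACC (Sm sm_wqo)
open Pool.Agent.helper20.ALC (coreD)

variable {ι : Type} [Fintype ι] {m d : ℕ}

/-- coefficients for the toric comparison data -/
structure CoefC (Γ : Set ℝ) (C : ℝ) (t : Data ι m) : Prop where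
  boundary : ∀ i, C - logDisc t.toGenPair (toReal (t.v i)) ∈ AddSubmonoid.closure Γ
  parts : ∀ a ∈ t.parts, a.1 ∈ Γ ∧ a.2.Nonempty
  divisors : ∀ j i, order t j (toReal (t.v i)) ∈ AddSubmonoid.closure Γ
  dparts : ∀ j, ∀ a ∈ t.dparts j, a.1 ∈ Γ ∧ a.2.Nonempty

/-- the threshold polytope over the relative interior -/
def thr (a : ℝ) (t : Data ι m) : Set (Fin m → ℝ) :=
  {s | (∀ j, 0 ≤ s j) ∧ ∀ z : ι → ℤ, toReal z ∈ rint t.v →
    a ≤ logDisc t.toGenPair (toReal z) - ∑ j, s j * order t j (toReal z)}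

/-! ## sublinear functions -/

theorem GG_sub {C : ℝ} {b : Fin d → ℝ} {I : List (ℝ × Set (Fin d → ℕ))}
    (hI : ∀ a ∈ I, 0 ≤ a.1 ∧ a.2.Nonempty) {u v : Fin d → ℝ} (hu : ∀ i, 0 < u i)
    (hv : ∀ i, 0 < v i) : GG C b I (u + v) ≤ GG C b I u + GG C b I v := by
  have h1 : (I.map fun a => a.1 * od a.2 u).sum + (I.map fun a => a.1 * od a.2 v).sum ≤
      (I.map fun a => a.1 * od a.2 (u + v)).sum := by
    rw [← List.sum_map_add]
    apply List.sum_le_sum
    intro a ha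
    have := mul_le_mul_of_nonneg_left (od_add (hI a ha).2 hu hv) (hI a ha).1
    rw [mul_add] at this
    exact this
  simp only [GG, Pi.add_apply, add_mul, Finset.sum_add_distrib]
  linarith

theorem GG_hom {C : ℝ} {b : Fin d → ℝ} {I : List (ℝ × Set (Fin d → ℕ))} {t : ℝ} (ht : 0 < t)
    (u : Fin d → ℝ) : GG C b I (t • u) = t * GG C b I u := by
  simp only [GG, od_smul _ ht, Pi.smul_apply, smul_eq_mul, mul_sub, Finset.mul_sum]
  congr 1
  · exact Finset.sum_congr rfl fun i _ => by ring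
  · rw [← List.sum_map_mul_left]
    congr 1
    exact List.map_congr_left fun a _ => by ring

theorem GG_le {C : ℝ} {b : Fin d → ℝ} {I : List (ℝ × Set (Fin d → ℕ))} (hb : ∀ i, 0 ≤ b i)
    (hI : ∀ a ∈ I, 0 ≤ a.1 ∧ a.2.Nonempty) {u : Fin d → ℝ} (hu : ∀ i, 0 < u i) :
    GG C b I u ≤ C * ∑ i, u i := by
  have h1 : 0 ≤ (I.map fun a => a.1 * od a.2 u).sum := by
    apply List.sum_nonneg
    intro x hx
    obtain ⟨a, ha, rfl⟩ := List.mem_map.1 hx
    exact mul_nonneg (hI a ha).1 (od_nonneg _ hu)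
  have h2 : ∑ i, u i * (C - b i) ≤ C * ∑ i, u i := by
    rw [Finset.mul_sum]
    refine Finset.sum_le_sum fun i _ => ?_
    nlinarith [hu i, hb i]
  simp only [GG]; linarith

/-- a sublinear function which is nonnegative at the integral points is nonnegative -/
theorem nonneg_of_nat {C : ℝ} (hC : 0 < C) {F : (Fin d → ℝ) → ℝ}
    (hsub : ∀ u v : Fin d → ℝ, (∀ i, 0 < u i) → (∀ i, 0 < v i) → F (u + v) ≤ F u + F v)
    (hhom : ∀ (t : ℝ) (u : Fin d → ℝ), 0 < t → (∀ i, 0 < u i) → F (t • u) = t * F u)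
    (hle : ∀ u : Fin d → ℝ, (∀ i, 0 < u i) → F u ≤ C * ∑ i, u i)
    (hn : ∀ z : Fin d → ℕ, (∀ i, 0 < z i) → 0 ≤ F (fun i => (z i : ℝ)))
    (u : Fin d → ℝ) (hu : ∀ i, 0 < u i) : 0 ≤ F u := by
  by_contra hcon
  push Not at hcon
  obtain ⟨N, hN0, hN⟩ : ∃ N : ℕ, 0 < N ∧ (C * d : ℝ) * (1 / N) < - F u := by
    obtain ⟨N, hN⟩ := exists_nat_gt ((C * d : ℝ) / (- F u))
    have h1 : (0 : ℝ) ≤ (C * d : ℝ) / (- F u) :=
      div_nonneg (mul_nonneg hC.le (Nat.cast_nonneg _)) (by linarith)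
    have h2 : (0 : ℝ) < N := lt_of_le_of_lt h1 hN
    refine ⟨N, by exact_mod_cast h2, ?_⟩
    rw [div_lt_iff₀ (by linarith)] at hN
    rw [mul_one_div, div_lt_iff₀ h2]
    linarith
  have hNr : (0 : ℝ) < N := by exact_mod_cast hN0
  set z : Fin d → ℕ := fun i => ⌊N * u i⌋₊ + 1 with hz
  have hz1 : ∀ i, (N : ℝ) * u i < z i := fun i => by
    simp only [hz]; push_cast; exact Nat.lt_floor_add_one _
  have hz2 : ∀ i, (z i : ℝ) ≤ N * u i + 1 := fun i => by
    simp only [hz]; push_cast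
    have := Nat.floor_le (mul_nonneg hNr.le (hu i).le)
    linarith
  set q : Fin d → ℝ := fun i => (z i : ℝ) with hq
  have h3 : (N : ℝ) • u + (q - (N : ℝ) • u) = q := by abel
  have h4 : ∀ i, 0 < ((N : ℝ) • u) i := fun i => mul_pos hNr (hu i)
  have h5 : ∀ i, 0 < (q - (N : ℝ) • u) i := fun i => by
    simp only [Pi.sub_apply, Pi.smul_apply, smul_eq_mul, hq]
    linarith [hz1 i]
  have h6 := hsub _ _ h4 h5
  rw [h3, hhom _ _ hNr hu] at h6
  have h7 := hle _ h5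
  have h8 : ∑ i, (q - (N : ℝ) • u) i ≤ ∑ _i : Fin d, (1 : ℝ) := by
    refine Finset.sum_le_sum fun i _ => ?_
    simp only [Pi.sub_apply, Pi.smul_apply, smul_eq_mul, hq]
    linarith [hz2 i]
  simp only [Finset.sum_const, Finset.card_univ, Fintype.card_fin, nsmul_eq_mul, mul_one] at h8
  have h9 := hn z (fun i => Nat.succ_pos _)
  have h10 : (C * d : ℝ) < N * (- F u) := by
    have := mul_lt_mul_of_pos_left hN hNr
    have e : (N : ℝ) * (C * d * (1 / N)) = C * d := by field_simp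
    rw [e] at this
    exact this
  have h11 := mul_le_mul_of_nonneg_left h8 hC.le
  change 0 ≤ F q at h9
  linarith

/-- the order of `D + N` in coordinates -/
def OO (c : Fin d → ℝ) (J : List (ℝ × Set (Fin d → ℕ))) (u : Fin d → ℝ) : ℝ :=
  ∑ i, u i * c i + (J.map fun a => a.1 * od a.2 u).sum

theorem OO_eq (C : ℝ) (c : Fin d → ℝ) (J : List (ℝ × Set (Fin d → ℕ))) (u : Fin d → ℝ) :
    OO c J u = C * ∑ i, u i - GG C c J u := by
  simp only [OO, GG, mul_sub, Finset.sum_sub_distrib, Finset.mul_sum]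
  have h : ∑ i, u i * C = ∑ i, C * u i := Finset.sum_congr rfl fun i _ => mul_comm _ _
  rw [h]
  ring

theorem OO_mono {c c' : Fin d → ℝ} {J J' : List (ℝ × Set (Fin d → ℕ))} (hc : c ≤ c')
    (hJ : ∀ a ∈ J', 0 ≤ a.1 ∧ a.2.Nonempty) (h : List.SublistForall₂ Ri J J')
    {u : Fin d → ℝ} (hu : ∀ i, 0 < u i) : OO c J u ≤ OO c' J' u := by
  rw [OO_eq 1, OO_eq 1]
  linarith [GG_mono (C := 1) hc hJ h hu]

theorem OO_nonneg {c : Fin d → ℝ} {J : List (ℝ × Set (Fin d → ℕ))} (hc : ∀ i, 0 ≤ c i)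
    (hJ : ∀ a ∈ J, 0 ≤ a.1 ∧ a.2.Nonempty) {u : Fin d → ℝ} (hu : ∀ i, 0 < u i) :
    0 ≤ OO c J u := by
  rw [OO_eq 1]
  linarith [GG_le (C := 1) hc hJ hu]

/-- sublinearity of the log discrepancy after adding divisors -/
theorem good_comb {C : ℝ} (hC : 0 < C) {b : Fin d → ℝ} {I : List (ℝ × Set (Fin d → ℕ))}
    {c : Fin m → Fin d → ℝ}
    {J : Fin m → List (ℝ × Set (Fin d → ℕ))} {s : Fin m → ℝ} (hb : ∀ i, 0 ≤ b i)
    (hI : ∀ a ∈ I, 0 ≤ a.1 ∧ a.2.Nonempty) (hc : ∀ j i, 0 ≤ c j i)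
    (hJ : ∀ j, ∀ a ∈ J j, 0 ≤ a.1 ∧ a.2.Nonempty) (hs : ∀ j, 0 ≤ s j)
    (hn : ∀ z : Fin d → ℕ, (∀ i, 0 < z i) →
      0 ≤ GG C b I (fun i => (z i : ℝ)) - ∑ j, s j * OO (c j) (J j) (fun i => (z i : ℝ))) :
    Good C (fun u => GG C b I u - ∑ j, s j * OO (c j) (J j) u) := by
  have hsub : ∀ u v : Fin d → ℝ, (∀ i, 0 < u i) → (∀ i, 0 < v i) →
      GG C b I (u + v) - ∑ j, s j * OO (c j) (J j) (u + v) ≤
      (GG C b I u - ∑ j, s j * OO (c j) (J j) u) +
        (GG C b I v - ∑ j, s j * OO (c j) (J j) v) := by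
    intro u v hu hv
    have h1 := GG_sub (C := C) (b := b) hI hu hv
    have h2 : ∑ j, s j * OO (c j) (J j) u + ∑ j, s j * OO (c j) (J j) v ≤
        ∑ j, s j * OO (c j) (J j) (u + v) := by
      rw [← Finset.sum_add_distrib]
      refine Finset.sum_le_sum fun j _ => ?_
      rw [← mul_add]
      refine mul_le_mul_of_nonneg_left ?_ (hs j)
      rw [OO_eq 1, OO_eq 1, OO_eq 1]
      have h3 := GG_sub (C := 1) (b := c j) (hJ j) hu hv
      simp only [Pi.add_apply, Finset.sum_add_distrib]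
      linarith
    linarith
  have hhom : ∀ (t : ℝ) (u : Fin d → ℝ), 0 < t → (∀ i, 0 < u i) →
      GG C b I (t • u) - ∑ j, s j * OO (c j) (J j) (t • u) =
      t * (GG C b I u - ∑ j, s j * OO (c j) (J j) u) := by
    intro t u ht _
    rw [GG_hom ht, mul_sub, Finset.mul_sum]
    congr 1
    refine Finset.sum_congr rfl fun j _ => ?_
    rw [OO_eq 1, OO_eq 1, GG_hom ht]
    simp only [Pi.smul_apply, smul_eq_mul, ← Finset.mul_sum]
    ring
  have hle : ∀ u : Fin d → ℝ, (∀ i, 0 < u i) →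
      GG C b I u - ∑ j, s j * OO (c j) (J j) u ≤ C * ∑ i, u i := by
    intro u hu
    have h1 := GG_le (C := C) hb hI hu
    have h2 : 0 ≤ ∑ j, s j * OO (c j) (J j) u :=
      Finset.sum_nonneg fun j _ => mul_nonneg (hs j) (OO_nonneg (hc j) (hJ j) hu)
    linarith
  exact ⟨hsub, hhom, nonneg_of_nat hC hsub hhom hle hn, hle⟩

/-! ## the functions in coordinates -/

theorem sum_low_pt (t : GenPair ι) (T : Fin d → Fin t.p) {u : Fin d → ℝ} (hu : ∀ i, 0 < u i)
    (L : List (ℝ × Finset (ι → ℤ))) (hL : ∀ a ∈ L, a.2.Nonempty) :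
    (L.map fun a => a.1 * low a.2 (pt t.v T u)).sum =
      ∑ i, u i * (L.map fun a => a.1 * low a.2 (toReal (t.v (T i)))).sum +
        ((L.map (tr t T)).map fun a => a.1 * od a.2 u).sum := by
  induction L with
  | nil => simp
  | cons a L ih =>
    have h1 := ih fun b hb => hL b (List.mem_cons_of_mem _ hb)
    simp only [List.map_cons, List.sum_cons, mul_add, Finset.sum_add_distrib]
    have h0 : low a.2 (pt t.v T u) =
        ∑ i, u i * low a.2 (toReal (t.v (T i))) + od (tr t T a).2 u :=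
      low_pt t T a (hL a List.mem_cons_self) hu
    rw [h1, h0]
    have h2 : a.1 * ∑ i, u i * low a.2 (toReal (t.v (T i))) =
        ∑ i, u i * (a.1 * low a.2 (toReal (t.v (T i)))) := by
      rw [Finset.mul_sum]
      exact Finset.sum_congr rfl fun i _ => by ring
    have h3 : (tr t T a).1 = a.1 := rfl
    rw [mul_add, h2, h3]
    ring

theorem lin_pt (t : GenPair ι) (T : Fin d → Fin t.p) (f : ι → ℝ) (u : Fin d → ℝ) :
    ∑ j, f j * pt t.v T u j = ∑ i, u i * ∑ j, f j * toReal (t.v (T i)) j := by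
  simp only [pt, Finset.mul_sum]
  rw [Finset.sum_comm]
  refine Finset.sum_congr rfl fun i _ => ?_
  exact Finset.sum_congr rfl fun j _ => by simp only [toReal]; ring

theorem logDiscD_pt (C : ℝ) (t : GenPair ι) (hp : ∀ a ∈ t.parts, a.2.Nonempty)
    (T : Fin d → Fin t.p) {u : Fin d → ℝ} (hu : ∀ i, 0 < u i) :
    logDisc t (pt t.v T u) =
      GG C (fun i => C - logDisc t (toReal (t.v (T i)))) (t.parts.map (tr t T)) u := by
  have e1 := sum_low_pt t T hu t.parts hp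
  have e2 := lin_pt t T t.psi u
  rw [logDisc, e1, e2, GG]
  have h6 : ∑ i, u i * (C - (C - logDisc t (toReal (t.v (T i))))) =
      ∑ i, u i * ∑ j, t.psi j * toReal (t.v (T i)) j -
      ∑ i, u i * (t.parts.map fun a => a.1 * low a.2 (toReal (t.v (T i)))).sum := by
    rw [← Finset.sum_sub_distrib]
    refine Finset.sum_congr rfl fun i _ => ?_
    rw [logDisc]
    ring
  rw [h6, sub_add_eq_sub_sub]

theorem order_pt (t : Data ι m) (j : Fin m) (hp : ∀ a ∈ t.dparts j, a.2.Nonempty)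
    (T : Fin d → Fin t.p) {u : Fin d → ℝ} (hu : ∀ i, 0 < u i) :
    order t j (pt t.v T u) =
      OO (fun i => order t j (toReal (t.v (T i))))
        ((t.dparts j).map (tr t.toGenPair T)) u := by
  have e1 := sum_low_pt t.toGenPair T hu (t.dparts j) hp
  have e2 := lin_pt t.toGenPair T (t.phi j) u
  rw [order, e1, e2, OO]
  have h6 : ∑ i, u i * order t j (toReal (t.v (T i))) =
      ∑ i, u i * ∑ k, t.phi j k * toReal (t.v (T i)) k +
      ∑ i, u i * ((t.dparts j).map fun a => a.1 * low a.2 (toReal (t.v (T i)))).sum := by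
    rw [← Finset.sum_add_distrib]
    refine Finset.sum_congr rfl fun i _ => ?_
    rw [order]
    ring
  rw [h6, ← add_assoc]

/-- the log discrepancy of the pair with divisors, in coordinates -/
def FF (C : ℝ) (t : Data ι m) (T : Fin d → Fin t.p) (s : Fin m → ℝ) (u : Fin d → ℝ) : ℝ :=
  GG C (fun i => C - logDisc t.toGenPair (toReal (t.v (T i))))
      (t.parts.map (tr t.toGenPair T)) u -
    ∑ j, s j * OO (fun i => order t j (toReal (t.v (T i))))
      ((t.dparts j).map (tr t.toGenPair T)) u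

theorem FF_eq {Γ : Set ℝ} {C : ℝ} {t : Data ι m} (ht : CoefC Γ C t) (T : Fin d → Fin t.p)
    (s : Fin m → ℝ) {u : Fin d → ℝ} (hu : ∀ i, 0 < u i) :
    FF C t T s u = logDisc t.toGenPair (pt t.v T u) - ∑ j, s j * order t j (pt t.v T u) := by
  rw [FF, logDiscD_pt C t.toGenPair (fun a ha => (ht.parts a ha).2) T hu]
  congr 1
  refine Finset.sum_congr rfl fun j _ => ?_
  rw [order_pt t j (fun a ha => (ht.dparts j a ha).2) T hu]

theorem parts_tr {Γ : Set ℝ} (hΓ : ∀ x ∈ Γ, 0 ≤ x) {t : GenPair ι} (T : Fin d → Fin t.p)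
    {L : List (ℝ × Finset (ι → ℤ))} (hL : ∀ a ∈ L, a.1 ∈ Γ ∧ a.2.Nonempty) :
    ∀ a ∈ L.map (tr t T), 0 ≤ a.1 ∧ a.2.Nonempty := by
  intro a ha
  obtain ⟨a0, ha0, rfl⟩ := List.mem_map.1 ha
  exact ⟨hΓ _ (hL a0 ha0).1, Set.Nonempty.image _ (by exact_mod_cast (hL a0 ha0).2)⟩

theorem FF_good {Γ : Set ℝ} {C : ℝ} (hΓ : ∀ x ∈ Γ, 0 ≤ x) (hC : 0 < C) {t : Data ι m}
    (ht : CoefC Γ C t) {a : ℝ} (ha : 0 ≤ a) {s : Fin m → ℝ} (hs : s ∈ thr a t)
    {T : Fin d → Fin t.p} {l : Fin d → ℝ} (hint : pt t.v T l ∈ rint t.v) :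
    Good C (FF C t T s) := by
  refine good_comb hC (fun i => closure_nonneg hΓ (ht.boundary _))
    (parts_tr (t := t.toGenPair) hΓ T ht.parts) (fun j i => closure_nonneg hΓ (ht.divisors j _))
    (fun j => parts_tr (t := t.toGenPair) hΓ T (ht.dparts j)) hs.1 ?_
  intro z hz
  have hzr : ∀ i, (0 : ℝ) < (z i : ℝ) := fun i => by exact_mod_cast hz i
  have h1 : pt t.v T (fun i => (z i : ℝ)) = toReal (fun j => ∑ i, (z i : ℤ) * t.v (T i) j) := by
    funext j
    simp only [pt, toReal]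
    push_cast
    rfl
  have h2 := FF_eq ht T s hzr
  rw [h1] at h2
  refine ha.trans (le_trans ?_ h2.ge)
  apply hs.2
  rw [← h1]
  exact pt_rint _ _ hint hzr

/-- the reduction to simplicial coordinates -/
theorem reduceD {Γ : Set ℝ} {C : ℝ} {t : Data ι m} (ht : CoefC Γ C t) {s : Fin m → ℝ} {x : ℝ}
    {z : ι → ℤ} (hz : toReal z ∈ rint t.v)
    (hx : logDisc t.toGenPair (toReal z) - ∑ j, s j * order t j (toReal z) < x) :
    ∃ d : ℕ, d < Fintype.card ι + 1 ∧ ∃ (T : Fin d → Fin t.p) (l : Fin d → ℝ),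
      (∀ i, 0 < l i) ∧ l ∈ latt t.v T ∧ pt t.v T l ∈ rint t.v ∧
      LinearIndependent ℝ (fun i => toReal (t.v (T i))) ∧ FF C t T s l < x := by
  obtain ⟨μ, hμ, hμ2⟩ : toReal z ∈ coneOf t.v := hz.1
  obtain ⟨d, T, l, hl, hzl, hli⟩ := caratheodory (fun i => toReal (t.v i)) (toReal z) _ μ
    rfl hμ (by
      funext j
      simp only [Finset.sum_apply, Pi.smul_apply, smul_eq_mul]
      exact hμ2 j)
  have hpt : pt t.v T l = toReal z := by
    rw [hzl, pt_eq_sum]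
  refine ⟨d, ?_, T, l, hl, ⟨z, hpt⟩, by rw [hpt]; exact hz, hli, ?_⟩
  · have h1 := hli.fintype_card_le_finrank
    simp only [Fintype.card_fin, Module.finrank_fintype_fun_eq_card] at h1
    omega
  · rw [FF_eq ht T s hl, hpt]
    exact hx

theorem toricD {Γ : Set ℝ} {C : ℝ} (hΓ : ∀ x ∈ Γ, 0 ≤ x) (hC : 0 < C) {a : ℝ} (ha : 0 ≤ a)
    (hdcc : ¬ ∃ f : ℕ → ℝ, StrictAnti f ∧ ∀ k, f k ∈ Γ) (t : ℕ → Data ι m)
    (ht : ∀ k, CoefC Γ C (t k)) :
    ∃ k, ∀ s : Fin m → ℝ, (∀ l, k < l → s ∈ thr a (t l)) → s ∈ thr a (t k) := by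
  classical
  by_contra hcon
  push Not at hcon
  choose s hs hsk using hcon
  have hred : ∀ k, ∃ d : ℕ, d < Fintype.card ι + 1 ∧
      ∃ (T : Fin d → Fin (t k).p) (l : Fin d → ℝ),
      (∀ i, 0 < l i) ∧ l ∈ latt (t k).v T ∧ pt (t k).v T l ∈ rint (t k).v ∧
      LinearIndependent ℝ (fun i => toReal ((t k).v (T i))) ∧
      FF C (t k) T (s k) l < a := by
    intro k
    have h1 : ¬ ∀ z : ι → ℤ, toReal z ∈ rint (t k).v →
        a ≤ logDisc (t k).toGenPair (toReal z) - ∑ j, s k j * order (t k) j (toReal z) :=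
      fun h => hsk k ⟨(hs k (k + 1) (Nat.lt_succ_self k)).1, h⟩
    push Not at h1
    obtain ⟨z, hz, hzx⟩ := h1
    exact reduceD (ht k) hz hzx
  choose dd hdd hP using hred
  -- constant dimension
  obtain ⟨d, hd⟩ := Finite.exists_infinite_fiber
    (fun k => (⟨dd k, hdd k⟩ : Fin (Fintype.card ι + 1)))
  have hd' : {k | dd k = (d : ℕ)}.Infinite := by
    have h1 := Set.infinite_coe_iff.1 hd
    refine h1.mono ?_
    intro k hk
    exact congrArg Fin.val hk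
  obtain ⟨ψ, hψ, hψd⟩ := Filter.extraction_of_frequently_atTop
    (Nat.frequently_atTop_iff_infinite.2 hd')
  have hP' : ∀ k, ∃ (T : Fin (d : ℕ) → Fin (t (ψ k)).p) (l : Fin (d : ℕ) → ℝ),
      (∀ i, 0 < l i) ∧ l ∈ latt (t (ψ k)).v T ∧
      pt (t (ψ k)).v T l ∈ rint (t (ψ k)).v ∧
      LinearIndependent ℝ (fun i => toReal ((t (ψ k)).v (T i))) ∧
      FF C (t (ψ k)) T (s (ψ k)) l < a := by
    intro k
    have h1 := hP (ψ k)
    rw [hψd k] at h1
    exact h1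
  choose T l hl hlL hint hli hlt using hP'
  -- monotone subsequences
  have hWF : Γ.IsPWO := by
    rw [Set.isPWO_iff_isWF, Set.isWF_iff_no_descending_seq]
    intro f hf hmem
    exact hdcc ⟨f, hf, hmem⟩
  have hcl := hWF.addSubmonoid_closure hΓ
  have hb : (Set.univ.pi fun _ : Fin (d : ℕ) => (AddSubmonoid.closure Γ : Set ℝ)).IsPWO :=
    Set.IsPWO.pi fun _ => hcl
  have hc : (Set.univ.pi fun _ : Fin m => Set.univ.pi fun _ : Fin (d : ℕ) =>
      (AddSubmonoid.closure Γ : Set ℝ)).IsPWO := Set.IsPWO.pi fun _ => hb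
  have hR : {x : ℝ × Set (Fin (d : ℕ) → ℕ) | x.1 ∈ Γ}.PartiallyWellOrderedOn Ri := by
    have h1 := Set.PartiallyWellOrderedOn.prod (r := (· ≤ ·)) (r' := Sm (d := (d : ℕ))) hWF
      (Set.partiallyWellOrderedOn_of_wellQuasiOrdered sm_wqo Set.univ)
    refine h1.mono ?_
    intro x hx
    exact ⟨hx, Set.mem_univ _⟩
  have hI := Set.PartiallyWellOrderedOn.partiallyWellOrderedOn_sublistForall₂ Ri hR
  have hpre : IsPreorder (List (ℝ × Set (Fin (d : ℕ) → ℕ))) (List.SublistForall₂ Ri) :=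
    { refl := fun x => refl_of (List.SublistForall₂ Ri) x
      trans := fun x y z h1 h2 => trans_of (List.SublistForall₂ Ri) h1 h2 }
  have hJ := Set.PartiallyWellOrderedOn.pi (ι := Fin m)
    (r := fun _ => List.SublistForall₂ (Ri (d := (d : ℕ)))) (fun _ => hI)
  have hpre2 : IsPreorder (Fin m → List (ℝ × Set (Fin (d : ℕ) → ℕ)))
      (fun a b => ∀ i, List.SublistForall₂ Ri (a i) (b i)) :=
    { refl := fun x i => refl_of (List.SublistForall₂ Ri) (x i)
      trans := fun x y z h1 h2 i => trans_of (List.SublistForall₂ Ri) (h1 i) (h2 i) }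
  obtain ⟨g1, hg1⟩ := hb.exists_monotone_subseq
    (f := fun k i => C - logDisc (t (ψ k)).toGenPair (toReal ((t (ψ k)).v (T k i)))) (by
    intro k i _
    exact (ht (ψ k)).boundary (T k i))
  obtain ⟨g2, hg2⟩ := hc.exists_monotone_subseq
    (f := fun k j i => order (t (ψ (g1 k))) j (toReal ((t (ψ (g1 k))).v (T (g1 k) i)))) (by
    intro k j _ i _
    exact (ht (ψ (g1 k))).divisors j (T (g1 k) i))
  obtain ⟨g3, hg3⟩ := hI.exists_monotone_subseq
    (f := fun k => (t (ψ (g1 (g2 k)))).parts.map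
      (tr (t (ψ (g1 (g2 k)))).toGenPair (T (g1 (g2 k))))) (by
    intro k x hx
    obtain ⟨y, hy, rfl⟩ := List.mem_map.1 hx
    exact ((ht (ψ (g1 (g2 k)))).parts y hy).1)
  obtain ⟨g4, hg4⟩ := hJ.exists_monotone_subseq
    (f := fun k j => ((t (ψ (g1 (g2 (g3 k))))).dparts j).map
      (tr (t (ψ (g1 (g2 (g3 k))))).toGenPair (T (g1 (g2 (g3 k)))))) (by
    intro k j _ x hx
    obtain ⟨y, hy, rfl⟩ := List.mem_map.1 hx
    exact ((ht (ψ (g1 (g2 (g3 k))))).dparts j y hy).1)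
  set θ : ℕ → ℕ := fun k => g1 (g2 (g3 (g4 k))) with hθ
  have hθm : StrictMono θ :=
    g1.strictMono.comp (g2.strictMono.comp (g3.strictMono.comp g4.strictMono))
  obtain ⟨k, hk⟩ := coreD (fun k => latt (t (ψ (θ k))).v (T (θ k)))
    (fun k => latt_isOver _ _ (hli (θ k))) (fun k => l (θ k)) (fun k => hlL (θ k))
  have hlt' := hlt (θ k)
  have hlk := hl (θ k)
  set w := l (θ k) with hw
  set A := FF C (t (ψ (θ k))) (T (θ k)) (s (ψ (θ k))) w with hA
  obtain ⟨ε, hε0, hε⟩ : ∃ ε : ℝ, 0 < ε ∧ A + C * ε < a := by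
    refine ⟨(a - A) / (2 * C), div_pos (by linarith) (by linarith), ?_⟩
    have e : C * ((a - A) / (2 * C)) = (a - A) / 2 := by field_simp
    rw [e]
    linarith
  -- constants
  have hσ0 : 0 ≤ ∑ i, w i := Finset.sum_nonneg fun i _ => (hlk i).le
  obtain ⟨τ, hτ0, hτ1, hτ2⟩ : ∃ τ : ℝ, 0 < τ ∧ τ < 1 ∧ τ * ∑ i, w i ≤ ε / 2 := by
    refine ⟨min (1 / 2) (ε / (2 * (∑ i, w i + 1))), lt_min (by norm_num) (by positivity),
      lt_of_le_of_lt (min_le_left _ _) (by norm_num), ?_⟩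
    calc min (1 / 2) (ε / (2 * (∑ i, w i + 1))) * ∑ i, w i
        ≤ ε / (2 * (∑ i, w i + 1)) * ∑ i, w i :=
          mul_le_mul_of_nonneg_right (min_le_right _ _) hσ0
      _ ≤ ε / (2 * (∑ i, w i + 1)) * (∑ i, w i + 1) := by
          apply mul_le_mul_of_nonneg_left (by linarith); positivity
      _ = ε / 2 := by field_simp
  obtain ⟨δ, hδ0, hδ1, hδ2⟩ : ∃ δ : ℝ, 0 < δ ∧ (∀ i, δ ≤ τ * w i) ∧ (d : ℕ) * δ ≤ ε / 2 := by
    have h1 : ∃ δ1 : ℝ, 0 < δ1 ∧ ∀ i, δ1 ≤ τ * w i := by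
      rcases isEmpty_or_nonempty (Fin (d : ℕ)) with h | h
      · exact ⟨1, one_pos, fun i => (h.false i).elim⟩
      · obtain ⟨i0, hi0⟩ := Finite.exists_min (fun i => τ * w i)
        exact ⟨τ * w i0, mul_pos hτ0 (hlk i0), hi0⟩
    obtain ⟨δ1, h10, h11⟩ := h1
    refine ⟨min δ1 (ε / (2 * ((d : ℕ) + 1))), lt_min h10 (by positivity),
      fun i => (min_le_left _ _).trans (h11 i), ?_⟩
    calc ((d : ℕ) : ℝ) * min δ1 (ε / (2 * ((d : ℕ) + 1)))
        ≤ ((d : ℕ) + 1) * (ε / (2 * ((d : ℕ) + 1))) := by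
          apply mul_le_mul (by linarith) (min_le_right _ _) (le_min h10.le (by positivity))
            (by positivity)
      _ = ε / 2 := by field_simp
  obtain ⟨r, hr, g, hgL, hg⟩ := hk δ hδ0 (k + 1)
  have hgpos : ∀ i, 0 < g i := by
    intro i
    have h1 := abs_lt.1 (hg i)
    have h2 := hδ1 i
    have h3 := hlk i
    nlinarith
  have hkr : ψ (θ k) < ψ (θ r) := hψ (hθm (by omega))
  have hmem : s (ψ (θ k)) ∈ thr a (t (ψ (θ r))) := hs _ _ hkr
  have hgood : Good C (FF C (t (ψ (θ r))) (T (θ r)) (s (ψ (θ k)))) :=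
    FF_good hΓ hC (ht _) ha hmem (hint (θ r))
  have h4 := hgood.near hC.le hlk hτ0 hτ1 hδ1 hg
  have hkr' : k ≤ r := by omega
  -- comparison at `w`
  have h5 : FF C (t (ψ (θ r))) (T (θ r)) (s (ψ (θ k))) w ≤ A := by
    rw [hA, FF, FF]
    have h6 := GG_mono (C := C) (hg1 (g2.monotone (g3.monotone (g4.monotone hkr'))))
      (parts_tr (t := (t (ψ (θ r))).toGenPair) hΓ (T (θ r)) (ht (ψ (θ r))).parts)
      (hg3 _ _ (g4.monotone hkr')) hlk
    have h7 : ∑ j, s (ψ (θ k)) j * OO (fun i => order (t (ψ (θ k))) j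
        (toReal ((t (ψ (θ k))).v (T (θ k) i)))) (((t (ψ (θ k))).dparts j).map
          (tr (t (ψ (θ k))).toGenPair (T (θ k)))) w ≤
        ∑ j, s (ψ (θ k)) j * OO (fun i => order (t (ψ (θ r))) j
        (toReal ((t (ψ (θ r))).v (T (θ r) i)))) (((t (ψ (θ r))).dparts j).map
          (tr (t (ψ (θ r))).toGenPair (T (θ r)))) w := by
      refine Finset.sum_le_sum fun j _ => ?_
      refine mul_le_mul_of_nonneg_left ?_ (hmem.1 j)
      exact OO_mono (hg2 (g3.monotone (g4.monotone hkr')) j)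
        (parts_tr (t := (t (ψ (θ r))).toGenPair) hΓ (T (θ r)) ((ht (ψ (θ r))).dparts j))
        (hg4 _ _ hkr' j) hlk
    change GG _ _ _ w - _ ≤ GG _ _ _ w - _
    exact sub_le_sub h6 h7
  obtain ⟨z, hgz⟩ := hgL
  have hzint : toReal z ∈ rint (t (ψ (θ r))).v := by
    rw [← hgz]
    exact pt_rint _ _ (hint (θ r)) hgpos
  have h8 := hmem.2 z hzint
  have h9 : FF C (t (ψ (θ r))) (T (θ r)) (s (ψ (θ k))) g =
      logDisc (t (ψ (θ r))).toGenPair (toReal z) -
        ∑ j, s (ψ (θ k)) j * order (t (ψ (θ r))) j (toReal z) := by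
    rw [FF_eq (ht _) (T (θ r)) _ hgpos, hgz]
  rw [← h9] at h8
  have h10 : C * (τ * ∑ i, w i + (d : ℕ) * δ) ≤ C * ε :=
    mul_le_mul_of_nonneg_left (by linarith) hC.le
  linarith

end Pool.Agent.helper20.TAT
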